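import Mathlib
import Pool.Agent.H925R3.DC.Stubs

/-! Task CLS of project DC (helper133): classes modulo `N` of a finitely generated group. -/

namespace Pool.Agent.H133R3.DC

open Finset

theorem cls : Pool.Agent.H925R3.DC.CLS := by
  classical
  intro G _ _
  haveI : Module.Finite ℤ G := Module.Finite.iff_addGroup_fg.mpr inferInstance
  obtain ⟨t, f, hf⟩ := Module.Finite.exists_fin' ℤ G
  refine ⟨t, fun N hN => ?_⟩
  refine ⟨(Fintype.piFinset (fun _ : Fin t => Finset.Ico (0 : ℤ) N)).image f, ?_, ?_⟩
  · refine Finset.card_image_le.trans (le_of_eq ?_)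
    simp
  · intro g
    obtain ⟨n, rfl⟩ := hf g
    have hN' : (0 : ℤ) < N := by exact_mod_cast hN
    refine ⟨f (fun i => n i % N), Finset.mem_image_of_mem _ ?_, f (fun i => n i / N), ?_⟩
    · rw [Fintype.mem_piFinset]
      intro i
      rw [Finset.mem_Ico]
      exact ⟨Int.emod_nonneg _ hN'.ne', Int.emod_lt_of_pos _ hN'⟩
    · rw [← map_nsmul, ← map_add]
      congr 1
      funext i
      simp only [Pi.add_apply, Pi.smul_apply, nsmul_eq_mul]
      exact (Int.emod_add_mul_ediv (n i) N).symm

end Pool.Agent.H133R3.DC
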